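import Pool.Agent.Lib.MP_14c6b5_gt.Space

set_option autoImplicit false

namespace Pool.Agent.Lib.MP_14c6b5_gt

open Set TopologicalSpace Cardinal

theorem exists_enum : ∃ ψ : ℝ → (ℕ → Alph), (∀ d, IsS (ψ d)) ∧ ∀ x, IsS x → ∃ d, ψ d = x := by
  classical
  have h1 : #Alph = 𝔠 := by
    have : #Alph = #ℝ + 1 := Cardinal.mk_option
    rw [this, Cardinal.mk_real]
    exact Cardinal.add_one_eq Cardinal.aleph0_le_continuum
  have h2 : #(ℕ → Alph) = #ℝ := by
    rw [← Cardinal.power_def, h1, Cardinal.mk_nat, Cardinal.continuum_power_aleph0,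
      Cardinal.mk_real]
  obtain ⟨e⟩ := Cardinal.eq.1 h2
  refine ⟨fun d => if IsS (e.symm d) then e.symm d else fun _ => ⊤, fun d => ?_, fun x hx => ?_⟩
  · by_cases h : IsS (e.symm d)
    · simp only [if_pos h]; exact h
    · simp only [if_neg h]; exact fun n => ⟨n, le_rfl, rfl⟩
  · refine ⟨e x, ?_⟩
    simp only [Equiv.symm_apply_apply, if_pos hx]

/-- An enumeration of the sequences with infinitely many top entries. -/
noncomputable def enum : ℝ → (ℕ → Alph) := exists_enum.choose

theorem enum_isS (d : ℝ) : IsS (enum d) := exists_enum.choose_spec.1 d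

theorem enum_surj {x : ℕ → Alph} (hx : IsS x) : ∃ d, enum d = x := exists_enum.choose_spec.2 x hx

/-- The right end point attached to a node and a letter. -/
noncomputable def tip (z : ℕ → Alph) (n : ℕ) (d : ℝ) : ℕ → Alph :=
  fun i => if i < n then z i else if i = n then ⊤ else enum d i

theorem tip_isS (z : ℕ → Alph) (n : ℕ) (d : ℝ) : IsS (tip z n d) := by
  intro k
  obtain ⟨m, hm, hm'⟩ := enum_isS d (max k (n + 1))
  have h1 : n + 1 ≤ m := (le_max_right _ _).trans hm
  refine ⟨m, (le_max_left _ _).trans hm, ?_⟩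
  simp only [tip]
  rw [if_neg (by omega), if_neg (by omega), hm']

theorem tip_lt {z : ℕ → Alph} {n : ℕ} {d : ℝ} {i : ℕ} (hi : i < n) : tip z n d i = z i := by
  simp only [tip]; rw [if_pos hi]

theorem tip_self (z : ℕ → Alph) (n : ℕ) (d : ℝ) : tip z n d n = ⊤ := by
  simp [tip]

/-- The main basic open sets. -/
def U (z : ℕ → Alph) (n : ℕ) (d : ℝ) : Set L :=
  {p | (∀ i, i < n → p.z i = z i) ∧ (p.z n = (d : Alph) ∨ (p.z n = ⊤ ∧ p ≤ pt (tip z n d)))}

theorem U_congr {z w : ℕ → Alph} {n : ℕ} (h : ∀ i, i < n → z i = w i) (d : ℝ) :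
    U z n d = U w n d := by
  have ht : tip z n d = tip w n d := by
    funext i
    simp only [tip]
    split_ifs with h1
    · exact h i h1
    · rfl
    · rfl
  ext p
  simp only [U, mem_ofPred_eq, ht]
  constructor
  · rintro ⟨h1, h2⟩
    exact ⟨fun i hi => (h1 i hi).trans (h i hi), h2⟩
  · rintro ⟨h1, h2⟩
    exact ⟨fun i hi => (h1 i hi).trans (h i hi).symm, h2⟩

theorem mem_cone_update {z : ℕ → Alph} {n : ℕ} {a : Alph} {p : L} :
    p ∈ cone (Function.update z n a) (n + 1) ↔ (∀ i, i < n → p.z i = z i) ∧ p.z n = a := by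
  constructor
  · intro h
    refine ⟨fun i hi => ?_, ?_⟩
    · rw [h i (by omega), Function.update_of_ne hi.ne]
    · rw [h n (by omega), Function.update_self]
  · rintro ⟨h1, h2⟩ i hi
    rcases Nat.lt_succ_iff_lt_or_eq.1 hi with h | h
    · rw [h1 i h, Function.update_of_ne h.ne]
    · subst h; rw [h2, Function.update_self]

theorem isOpen_U (z : ℕ → Alph) (n : ℕ) (d : ℝ) : IsOpen (U z n d) := by
  have : U z n d = cone (Function.update z n (d : Alph)) (n + 1) ∪
      (cone (Function.update z n ⊤) (n + 1) ∩ Iic (pt (tip z n d))) := by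
    ext p
    simp only [U, mem_ofPred_eq, mem_union, mem_inter_iff, mem_cone_update, mem_Iic]
    tauto
  rw [this]
  exact (isOpen_cone _ _).union ((isOpen_cone _ _).inter (isOpen_Iic_pt (tip_isS _ _ _)))

theorem tip_mem_U (z : ℕ → Alph) (n : ℕ) (d : ℝ) : pt (tip z n d) ∈ U z n d :=
  ⟨fun _ hi => tip_lt hi, Or.inr ⟨tip_self z n d, le_rfl⟩⟩

theorem U_le_tip {z : ℕ → Alph} {n : ℕ} {d : ℝ} {p : L} (hp : p ∈ U z n d) :
    p ≤ pt (tip z n d) := by
  rcases hp.2 with h | h
  · refine ((lt_iff p (pt (tip z n d))).2 (Or.inl ⟨n, fun i hi => ?_, ?_⟩)).le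
    · exact (hp.1 i hi).trans (tip_lt hi).symm
    · change p.z n < tip z n d n
      rw [h, tip_self]
      exact WithTop.coe_lt_top d
  · exact h.2

/-- The base. -/
def base : Set (Set L) :=
  {W | ∃ z n d, W = U z n d} ∪ {W | IsOpen W ∧ ∀ p ∈ W, 0 ≤ p.q}

theorem isBasis : IsTopologicalBasis base := by
  refine isTopologicalBasis_of_isOpen_of_nhds ?_ ?_
  · rintro W (⟨z, n, d, rfl⟩ | h)
    · exact isOpen_U z n d
    · exact h.1
  · intro p O hp hO
    rcases p.ok with h | h
    · have hp' : p = pt p.z := L.ext rfl h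
      have hO' : pt p.z ∈ O := hp' ▸ hp
      obtain ⟨n, hn⟩ := left_nhds hO hO'
      by_cases hS : IsS p.z
      · obtain ⟨m, hm, hm'⟩ := hS n
        obtain ⟨d, hd⟩ := enum_surj hS
        have ht : tip p.z m d = p.z := by
          funext i
          simp only [tip]
          split_ifs with h1 h2
          · rfl
          · rw [h2, hm']
          · rw [hd]
        refine ⟨U p.z m d, Or.inl ⟨_, _, _, rfl⟩, ?_, fun r hr => hn ⟨?_, ?_⟩⟩
        · have := tip_mem_U p.z m d
          rwa [ht, ← hp'] at this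
        · exact fun i hi => hr.1 i (by omega)
        · have := U_le_tip hr
          rwa [ht] at this
      · obtain ⟨n', hn'⟩ := right_nhds hS hO hO'
        have hS' := hS
        unfold IsS at hS'
        push Not at hS'
        obtain ⟨k, hk⟩ := hS'
        let m := max k (max n n')
        have hm1 : k ≤ m := le_max_left _ _
        have hm2 : n ≤ m := (le_max_left _ _).trans (le_max_right _ _)
        have hm3 : n' ≤ m := (le_max_right _ _).trans (le_max_right _ _)
        obtain ⟨d, hd⟩ := WithTop.ne_top_iff_exists.1 (hk m hm1)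
        refine ⟨U p.z m d, Or.inl ⟨_, _, _, rfl⟩, ⟨fun _ _ => rfl, Or.inl hd.symm⟩, fun r hr => ?_⟩
        rcases le_total r (pt p.z) with h1 | h1
        · exact hn ⟨fun i hi => hr.1 i (by omega), h1⟩
        · exact hn' ⟨fun i hi => hr.1 i (by omega), h1⟩
    · exact ⟨O ∩ {p : L | 0 ≤ p.q}, Or.inr ⟨hO.inter isOpen_block, fun r hr => hr.2⟩,
        ⟨hp, h.2⟩, inter_subset_left⟩

theorem exists_seq (next : (ℕ → Alph) → ℕ → Alph) :
    ∃ y : ℕ → Alph, ∀ m, ∃ w, (∀ i, i < m → w i = y i) ∧ y m = next w m := by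
  classical
  let W : ℕ → (ℕ → Alph) := fun m =>
    Nat.rec (fun _ => ⊤) (fun k w => Function.update w k (next w k)) m
  have hW : ∀ m, W (m + 1) = Function.update (W m) m (next (W m) m) := fun _ => rfl
  refine ⟨fun m => W (m + 1) m, fun m => ⟨W m, ?_, ?_⟩⟩
  · induction m with
    | zero => intro i hi; omega
    | succ m ih =>
      intro i hi
      rcases Nat.lt_succ_iff_lt_or_eq.1 hi with h | h
      · rw [hW m, Function.update_of_ne h.ne]
        exact ih i h
      · subst h; rfl
  · simp only [hW, Function.update_self]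

theorem not_resolvable (B₀ : Set (Set L)) (hsub : B₀ ⊆ base) (h0 : IsTopologicalBasis B₀)
    (h1 : IsTopologicalBasis (base \ B₀)) : False := by
  classical
  obtain ⟨x, hx⟩ := exists_seq (fun w m =>
    if h : ∃ d, U w m d ∈ B₀ then ((h.choose : ℝ) : Alph) else ⊤)
  have key : ∀ m, (x m = ⊤ ∧ ∀ d, U x m d ∉ B₀) ∨ ∃ d : ℝ, x m = d ∧ U x m d ∈ B₀ := by
    intro m
    obtain ⟨w, hw, hxm⟩ := hx m
    by_cases h : ∃ d, U w m d ∈ B₀
    · right
      refine ⟨h.choose, ?_, ?_⟩
      · rw [hxm, dif_pos h]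
      · rw [← U_congr hw]; exact h.choose_spec
    · left
      refine ⟨by rw [hxm, dif_neg h], fun d hd => h ⟨d, ?_⟩⟩
      rw [U_congr hw]; exact hd
  have hq : ¬ (0 : ℚ) ≤ (pt x).q := by simp [pt]
  by_cases hS : IsS x
  · obtain ⟨W, hW, hxW, hWs⟩ := h0.exists_subset_of_mem_open (mem_Iic.2 (le_refl (pt x)))
      (isOpen_Iic_pt hS)
    rcases hsub hW with ⟨z, n, d, rfl⟩ | h
    · have h2 : pt (tip z n d) ≤ pt x := hWs (tip_mem_U z n d)
      have h3 : pt x = pt (tip z n d) := le_antisymm (U_le_tip hxW) h2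
      have h4 : x = tip z n d := congrArg L.z h3
      have h5 : x n = ⊤ := by rw [h4, tip_self]
      have h6 : U x n d ∈ B₀ := by
        rw [U_congr (z := x) (w := z) hxW.1]; exact hW
      rcases key n with h7 | ⟨e, h7, -⟩
      · exact h7.2 d h6
      · rw [h5] at h7
        exact WithTop.top_ne_coe h7
    · exact hq (h.2 _ hxW)
  · have hS' := hS
    unfold IsS at hS'
    push Not at hS'
    obtain ⟨k, hk⟩ := hS'
    obtain ⟨W, hW, hxW, hWs⟩ := h1.exists_subset_of_mem_open
      (show pt x ∈ cone x k from fun _ _ => rfl) (isOpen_cone x k)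
    rcases hW.1 with ⟨z, n, d, rfl⟩ | h
    · have hn : k ≤ n := by
        by_contra hc
        push Not at hc
        have a1 : tip z n d n = x n := hWs (tip_mem_U z n d) n hc
        have a2 : pt (Function.update z n (d : Alph)) ∈ U z n d :=
          ⟨fun i hi => Function.update_of_ne hi.ne _ _, Or.inl (Function.update_self _ _ _)⟩
        have a3 : Function.update z n (d : Alph) n = x n := hWs a2 n hc
        rw [tip_self] at a1
        rw [Function.update_self, ← a1] at a3
        exact WithTop.coe_ne_top a3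
      have h5 : x n = d := by
        rcases hxW.2 with h | h
        · exact h
        · exact absurd h.1 (hk n hn)
      rcases key n with h7 | ⟨e, h7, h8⟩
      · exact hk n hn h7.1
      · have h9 : e = d := WithTop.coe_injective (h7.symm.trans h5)
        subst h9
        apply hW.2
        rw [← U_congr (z := x) (w := z) hxW.1]
        exact h8
    · exact hq (h.2 _ hxW)

end Pool.Agent.Lib.MP_14c6b5_gt
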