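import Mathlib

set_option autoImplicit false

namespace Pool.Agent.Lib.MP_14c6b5_gt

open Set TopologicalSpace

/-- The alphabet. -/
abbrev Alph : Type := WithTop ℝ

/-- Sequences with infinitely many top entries. -/
def IsS (z : ℕ → Alph) : Prop := ∀ n, ∃ m, n ≤ m ∧ z m = ⊤

/-- Strict lexicographic order on sequences. -/
def SeqLt (z w : ℕ → Alph) : Prop := ∃ n, (∀ i, i < n → z i = w i) ∧ z n < w n

/-- The points of the ordered space. -/
@[ext] structure L : Type where
  z : ℕ → Alph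
  q : ℚ
  ok : q = -1 ∨ (IsS z ∧ 0 ≤ q)

noncomputable def emb (p : L) : Lex (ℕ → Alph) ×ₗ ℚ := toLex (toLex p.z, p.q)

theorem emb_inj : Function.Injective emb := by
  intro p p' h
  have h1 : (toLex p.z, p.q) = (toLex p'.z, p'.q) := toLex.injective h
  have h2 := Prod.ext_iff.1 h1
  exact L.ext (toLex.injective h2.1) h2.2

noncomputable instance : LinearOrder L := LinearOrder.lift' emb emb_inj

theorem lt_iff (p p' : L) : p < p' ↔ SeqLt p.z p'.z ∨ (p.z = p'.z ∧ p.q < p'.q) := by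
  change emb p < emb p' ↔ _
  unfold emb
  rw [Prod.Lex.toLex_lt_toLex]
  simp only [toLex_inj]
  rfl

noncomputable instance : TopologicalSpace L := Preorder.topology L

instance : OrderTopology L := ⟨rfl⟩

/-- The basic point over a sequence. -/
def pt (z : ℕ → Alph) : L := ⟨z, -1, Or.inl rfl⟩

theorem q_ge (p : L) : -1 ≤ p.q := by
  rcases p.ok with h | h
  · exact h.ge
  · linarith [h.2]

/-- Cones. -/
def cone (z : ℕ → Alph) (n : ℕ) : Set L := {p | ∀ i, i < n → p.z i = z i}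

theorem seqLt_irrefl (z : ℕ → Alph) : ¬ SeqLt z z := by
  rintro ⟨n, -, h⟩
  exact lt_irrefl _ h

theorem seqLt_or_eq_of_le {p p' : L} (h : p ≤ p') : SeqLt p.z p'.z ∨ p.z = p'.z := by
  rcases h.lt_or_eq with h | h
  · rcases (lt_iff _ _).1 h with h | h
    · exact Or.inl h
    · exact Or.inr h.1
  · exact Or.inr (by rw [h])

theorem coord_le {z w : ℕ → Alph} (h : SeqLt z w ∨ z = w) (n : ℕ)
    (hn : ∀ i, i < n → z i = w i) : z n ≤ w n := by
  rcases h with ⟨m, hm, hlt⟩ | h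
  · rcases lt_trichotomy m n with h1 | h1 | h1
    · exact absurd (hn m h1) hlt.ne
    · subst h1; exact hlt.le
    · exact (hm n h1).le
  · rw [h]

theorem cone_ordConnected (z : ℕ → Alph) (n : ℕ) : (cone z n).OrdConnected := by
  refine ⟨fun a ha b hb c hc => ?_⟩
  have h1 := seqLt_or_eq_of_le hc.1
  have h2 := seqLt_or_eq_of_le hc.2
  intro i
  induction i using Nat.strong_induction_on with
  | _ i ih =>
    intro hi
    have e1 : a.z i ≤ c.z i := coord_le h1 i (fun j hj => by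
      rw [ha j (hj.trans hi), ih j hj (hj.trans hi)])
    have e2 : c.z i ≤ b.z i := coord_le h2 i (fun j hj => by
      rw [hb j (hj.trans hi), ih j hj (hj.trans hi)])
    rw [ha i hi] at e1
    rw [hb i hi] at e2
    exact le_antisymm e2 e1

theorem exists_lt_alph (a : Alph) : ∃ b : Alph, b < a := by
  induction a using WithTop.recTopCoe with
  | top => exact ⟨((0 : ℝ) : Alph), WithTop.coe_lt_top _⟩
  | coe a => exact ⟨((a - 1 : ℝ) : Alph), WithTop.coe_lt_coe.2 (by linarith)⟩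

theorem exists_below (p : L) (n : ℕ) : ∃ w, (∀ i, i < n → w i = p.z i) ∧ SeqLt w p.z := by
  obtain ⟨b, hb⟩ := exists_lt_alph (p.z n)
  refine ⟨Function.update p.z n b, fun i hi => Function.update_of_ne hi.ne _ _, n,
    fun i hi => Function.update_of_ne hi.ne _ _, ?_⟩
  rwa [Function.update_self]

theorem exists_above (p : L) (n : ℕ) : ∃ u : L, (∀ i, i < n → u.z i = p.z i) ∧ p < u := by
  classical
  let m : ℕ → Alph := fun i => if i < n then p.z i else ⊤
  have hm : IsS m := fun k => ⟨max k n, le_max_left _ _, by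
    simp only [m]; rw [if_neg (not_lt.2 (le_max_right _ _))]⟩
  refine ⟨⟨m, |p.q| + 1, Or.inr ⟨hm, by positivity⟩⟩, fun i hi => by simp [m, hi], ?_⟩
  rw [lt_iff]
  by_cases h : p.z = m
  · exact Or.inr ⟨h, by have := le_abs_self p.q; simp only; linarith⟩
  · left
    have hex : ∃ i, p.z i ≠ m i := by
      by_contra hc
      push Not at hc
      exact h (funext hc)
    refine ⟨Nat.find hex, fun i hi => ?_, ?_⟩
    · have := Nat.find_min hex hi
      push Not at this
      exact this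
    · have h1 := Nat.find_spec hex
      by_cases h2 : Nat.find hex < n
      · exact absurd (by simp only [m]; rw [if_pos h2]) h1
      · have h3 : m (Nat.find hex) = ⊤ := by simp only [m]; rw [if_neg h2]
        change p.z (Nat.find hex) < m (Nat.find hex)
        rw [h3] at h1 ⊢
        exact lt_top_iff_ne_top.2 h1

theorem isOpen_cone (z : ℕ → Alph) (n : ℕ) : IsOpen (cone z n) := by
  rw [isOpen_iff_mem_nhds]
  intro p hp
  obtain ⟨w, hw, hlt⟩ := exists_below p n
  obtain ⟨u, hu, hlt'⟩ := exists_above p n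
  have ha : pt w ∈ cone z n := fun i hi => (hw i hi).trans (hp i hi)
  have hb : u ∈ cone z n := fun i hi => (hu i hi).trans (hp i hi)
  have h1 : pt w < p := (lt_iff _ _).2 (Or.inl hlt)
  exact Filter.mem_of_superset (Ioo_mem_nhds h1 hlt')
    (Ioo_subset_Icc_self.trans ((cone_ordConnected z n).out ha hb))

theorem isOpen_Iic_pt {x : ℕ → Alph} (hx : IsS x) : IsOpen (Iic (pt x)) := by
  have : Iic (pt x) = Iio (⟨x, 0, Or.inr ⟨hx, le_rfl⟩⟩ : L) := by
    ext p
    simp only [mem_Iic, mem_Iio]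
    constructor
    · intro h
      refine lt_of_le_of_lt h ((lt_iff _ _).2 (Or.inr ⟨rfl, ?_⟩))
      simp [pt]
    · intro h
      rcases (lt_iff _ _).1 h with h | h
      · exact ((lt_iff p (pt x)).2 (Or.inl h)).le
      · have hq : p.q = -1 := by
          rcases p.ok with h1 | h1
          · exact h1
          · exact absurd h.2 (not_lt.2 h1.2)
        exact le_of_eq (L.ext h.1 hq)
  rw [this]
  exact isOpen_Iio

theorem isOpen_block : IsOpen {p : L | 0 ≤ p.q} := by
  rw [isOpen_iff_mem_nhds]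
  intro p hp
  have hp' : 0 ≤ p.q := hp
  have hS : IsS p.z := by
    rcases p.ok with h | h
    · rw [h] at hp'; norm_num at hp'
    · exact h.1
  have h1 : pt p.z < p := (lt_iff _ _).2 (Or.inr ⟨rfl, by simp only [pt]; linarith⟩)
  have h2 : p < (⟨p.z, p.q + 1, Or.inr ⟨hS, by linarith⟩⟩ : L) :=
    (lt_iff _ _).2 (Or.inr ⟨rfl, by simp⟩)
  refine Filter.mem_of_superset (Ioo_mem_nhds h1 h2) ?_
  rintro r ⟨hr1, hr2⟩
  have hz : r.z = p.z := by
    funext i
    exact (cone_ordConnected p.z (i + 1)).out (x := pt p.z) (fun _ _ => rfl)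
      (y := (⟨p.z, p.q + 1, Or.inr ⟨hS, by linarith⟩⟩ : L)) (fun _ _ => rfl) ⟨hr1.le, hr2.le⟩ i
      (Nat.lt_succ_self i)
  rcases (lt_iff _ _).1 hr1 with h | h
  · simp only [pt] at h
    rw [hz] at h
    exact absurd h (seqLt_irrefl _)
  · rcases r.ok with h3 | h3
    · simp only [pt] at h
      rw [h3] at h
      exact absurd h.2 (lt_irrefl _)
    · exact h3.2

theorem left_nhds {z : ℕ → Alph} {O : Set L} (hO : IsOpen O) (hz : pt z ∈ O) :
    ∃ n, cone z n ∩ Iic (pt z) ⊆ O := by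
  obtain ⟨w, -, hw⟩ := exists_below (pt z) 0
  have h1 : pt w < pt z := (lt_iff _ _).2 (Or.inl hw)
  obtain ⟨l, hl, hsub⟩ := exists_Ioc_subset_of_mem_nhds (hO.mem_nhds hz) ⟨_, h1⟩
  rcases (lt_iff _ _).1 hl with ⟨n, hn, hlt⟩ | h
  · refine ⟨n + 1, fun p hp => hsub ⟨?_, hp.2⟩⟩
    refine (lt_iff _ _).2 (Or.inl ⟨n, fun i hi => ?_, ?_⟩)
    · rw [hn i hi, hp.1 i (by omega)]; rfl
    · rw [hp.1 n (by omega)]; exact hlt
  · exact absurd h.2 (not_lt.2 (q_ge l))

theorem right_nhds {z : ℕ → Alph} (hS : ¬ IsS z) {O : Set L} (hO : IsOpen O) (hz : pt z ∈ O) :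
    ∃ n, cone z n ∩ Ici (pt z) ⊆ O := by
  obtain ⟨u, -, hu⟩ := exists_above (pt z) 0
  obtain ⟨l, hl, hsub⟩ := exists_Ico_subset_of_mem_nhds (hO.mem_nhds hz) ⟨_, hu⟩
  rcases (lt_iff _ _).1 hl with ⟨n, hn, hlt⟩ | h
  · refine ⟨n + 1, fun p hp => hsub ⟨hp.2, ?_⟩⟩
    refine (lt_iff _ _).2 (Or.inl ⟨n, fun i hi => ?_, ?_⟩)
    · rw [← hn i hi, hp.1 i (by omega)]; rfl
    · rw [hp.1 n (by omega)]; exact hlt
  · rcases l.ok with h3 | h3
    · rw [h3] at h
      exact absurd h.2 (lt_irrefl _)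
    · rw [← h.1] at h3
      exact absurd h3.1 hS

theorem no_isolated (p : L) : ¬ IsOpen ({p} : Set L) := by
  intro hO
  rcases p.ok with h | h
  · have hp : p = pt p.z := L.ext rfl h
    obtain ⟨n, hn⟩ := left_nhds hO (show pt p.z ∈ ({p} : Set L) from hp.symm)
    obtain ⟨w, hw, hlt⟩ := exists_below p n
    have h1 : pt w ∈ ({p} : Set L) :=
      hn ⟨fun i hi => hw i hi, ((lt_iff _ _).2 (Or.inl hlt)).le⟩
    have h2 : w = p.z := congrArg L.z (mem_singleton_iff.1 h1)
    rw [h2] at hlt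
    exact seqLt_irrefl _ hlt
  · obtain ⟨u, -, hu⟩ := exists_above p 0
    obtain ⟨l, hl, hsub⟩ := exists_Ico_subset_of_mem_nhds (hO.mem_nhds (mem_singleton p)) ⟨_, hu⟩
    rcases (lt_iff _ _).1 hl with h1 | h1
    · let r : L := ⟨p.z, p.q + 1, Or.inr ⟨h.1, by linarith [h.2]⟩⟩
      have h2 : r ∈ ({p} : Set L) :=
        hsub ⟨((lt_iff p r).2 (Or.inr ⟨rfl, show p.q < p.q + 1 by linarith⟩)).le,
          (lt_iff r l).2 (Or.inl h1)⟩
      have h3 : p.q + 1 = p.q := congrArg L.q (mem_singleton_iff.1 h2)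
      linarith
    · let r : L := ⟨p.z, (p.q + l.q) / 2, Or.inr ⟨h.1, by linarith [h.2, h1.2]⟩⟩
      have h2 : r ∈ ({p} : Set L) :=
        hsub ⟨((lt_iff p r).2 (Or.inr ⟨rfl, show p.q < (p.q + l.q) / 2 by linarith [h1.2]⟩)).le,
          (lt_iff r l).2 (Or.inr ⟨h1.1, show (p.q + l.q) / 2 < l.q by linarith [h1.2]⟩)⟩
      have h3 : (p.q + l.q) / 2 = p.q := congrArg L.q (mem_singleton_iff.1 h2)
      linarith [h1.2]

end Pool.Agent.Lib.MP_14c6b5_gt
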